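import Mathlib
import Pool.Agent.R861.BC4

/-!
# Bounded components of the curve where the derivative of a rational function is real

For a rational function `R` of one complex variable let `𝔍_R` be the set of the points of the
Riemann sphere where `R'` is real or infinite. We determine, for every pole divisor `D` with at
least one finite pole, the largest number `N(D)` of bounded components of `𝔍_R` for the rational
functions `R` with pole divisor `D`. Let `s(D)` be the number of finite poles. Then
`N(D) = s(D)` if infinity is a pole, and `N(D) = s(D) - 1` if infinity is not a pole.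

Upper bound: if a compact part `S` of `𝔍_R ∩ ℂ`, whose complement in `𝔍_R ∩ ℂ` is closed, contains
no pole, then `R'` has a maximum on `S`, which contradicts the open mapping theorem. If `∞` is not a
pole, then `R'` tends to `0` at `∞` and takes positive values arbitrarily near to `∞`; if all poles
were in bounded components, `R'` would have a maximum on the closed set `𝔍_R ∩ ℂ ∖ S`, `S` a compact
part that contains the poles. Lower bound: small perturbations `U / V + ε / Q`.
-/

set_option autoImplicit false

open Polynomial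

open scoped OnePoint

namespace Pool.Agent.Results.MP_bd2914_ag.BoundedComponents

/-- The order of the pole of the rational function `R` at a point of the Riemann sphere `ℂ ∪ {∞}`
(`0` if the point is not a pole): at a point `p ∈ ℂ` it is the multiplicity of `p` as a root of the
denominator of `R` in lowest terms, and at `∞` it is the degree of the numerator minus the degree
of the denominator, or `0` if this difference is negative. -/
noncomputable def poleOrder (R : RatFunc ℂ) : OnePoint ℂ → ℕ
  | ∞ => R.num.natDegree - R.denom.natDegree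
  | (p : ℂ) => R.denom.rootMultiplicity p

/-- The set `𝔍_R ∩ ℂ`: the points of `ℂ` which are poles of `R` (equivalently, of `R'`) or where the
derivative of `R` is real. -/
def realLocus (R : RatFunc ℂ) : Set ℂ :=
  {z | poleOrder R (z : OnePoint ℂ) ≠ 0 ∨ (deriv (fun w => R.eval (RingHom.id ℂ) w) z).im = 0}

/-- The set of the connected components of `𝔍_R ∩ ℂ` that are bounded subsets of `ℂ`. -/
def boundedComponents (R : RatFunc ℂ) : Set (Set ℂ) :=
  {K | Bornology.IsBounded K ∧ ∃ z ∈ realLocus R, K = connectedComponentIn (realLocus R) z}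

/-- The number `b(R)` of bounded components, an element of `ℕ ∪ {∞}`. -/
noncomputable def numBounded (R : RatFunc ℂ) : ℕ∞ := (boundedComponents R).encard

/-- The number `s(D)` of finite poles of a pole divisor. -/
noncomputable def numFinitePoles (D : OnePoint ℂ →₀ ℕ) : ℕ := {p : ℂ | D (p : OnePoint ℂ) ≠ 0}.ncard

open Pool.Agent.R861.BC

theorem poleOrder_ne_zero_iff (R : RatFunc ℂ) (z : ℂ) :
    poleOrder R (z : OnePoint ℂ) ≠ 0 ↔ R.denom.eval z = 0 := by
  change R.denom.rootMultiplicity z ≠ 0 ↔ _
  rw [← Nat.pos_iff_ne_zero, rootMultiplicity_pos (RatFunc.denom_ne_zero R)]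
  rfl

theorem realLocus_eq (R : RatFunc ℂ) : realLocus R = locus R.num R.denom := by
  ext z
  unfold realLocus locus
  rw [Set.mem_ofPred_eq, Set.mem_ofPred_eq, poleOrder_ne_zero_iff]
  by_cases hz : R.denom.eval z = 0
  · simp [hz]
  · have h1 : (fun w => R.eval (RingHom.id ℂ) w) = fun w => R.num.eval w / R.denom.eval w := rfl
    rw [h1, deriv_eq _ _ hz]

theorem numBounded_eq (R : RatFunc ℂ) : numBounded R = (bddComps (locus R.num R.denom)).encard := by
  unfold numBounded boundedComponents bddComps
  rw [realLocus_eq]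

/-- numerator and denominator of a fraction in lowest terms -/
theorem num_denom_of_coprime {N Q : ℂ[X]} (hco : IsCoprime N Q) (hQ : Q.Monic) :
    (algebraMap ℂ[X] (RatFunc ℂ) N / algebraMap ℂ[X] (RatFunc ℂ) Q).num = N ∧
    (algebraMap ℂ[X] (RatFunc ℂ) N / algebraMap ℂ[X] (RatFunc ℂ) Q).denom = Q := by
  set R : RatFunc ℂ := algebraMap ℂ[X] (RatFunc ℂ) N / algebraMap ℂ[X] (RatFunc ℂ) Q with hR
  have hQ' : algebraMap ℂ[X] (RatFunc ℂ) Q ≠ 0 := by
    rw [Ne, map_eq_zero_iff _ (RatFunc.algebraMap_injective ℂ)]
    exact hQ.ne_zero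
  have hd' : algebraMap ℂ[X] (RatFunc ℂ) R.denom ≠ 0 := by
    rw [Ne, map_eq_zero_iff _ (RatFunc.algebraMap_injective ℂ)]
    exact R.denom_ne_zero
  have h1 : N * R.denom = R.num * Q := by
    apply RatFunc.algebraMap_injective ℂ
    rw [map_mul, map_mul]
    have h2 := RatFunc.num_div_denom R
    rw [div_eq_iff hd'] at h2
    rw [h2, hR]
    field_simp
  have h2 : Q ∣ R.denom := by
    apply hco.symm.dvd_of_dvd_mul_left
    rw [h1]
    exact dvd_mul_left _ _
  have h3 : R.denom ∣ Q := RatFunc.denom_div_dvd _ _
  have h4 : R.denom = Q := eq_of_monic_of_associated R.monic_denom hQ (associated_of_dvd_dvd h3 h2)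
  refine ⟨?_, h4⟩
  rw [h4] at h1
  exact (mul_right_cancel₀ hQ.ne_zero h1).symm

/-- There is a complex number whose product with each of finitely many nonzero numbers is not
real. -/
theorem exists_scalar (T : Set ℂ) (hT : T.Finite) (h0 : ∀ w ∈ T, w ≠ 0) :
    ∃ c : ℂ, c ≠ 0 ∧ ∀ w ∈ T, (c * w).im ≠ 0 := by
  obtain ⟨t, ht⟩ := (hT.image fun w : ℂ => -w.im / w.re).exists_notMem
  refine ⟨1 + t * Complex.I, ?_, ?_⟩
  · intro h
    have := congrArg Complex.re h
    simp at this
  · intro w hw h
    apply ht
    refine ⟨w, hw, ?_⟩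
    simp only [Complex.mul_im, Complex.add_re, Complex.one_re, Complex.mul_re, Complex.ofReal_re,
      Complex.I_re, mul_zero, Complex.ofReal_im, Complex.I_im, mul_one, sub_zero, Complex.add_im,
      Complex.one_im, zero_add, add_zero] at h
    by_cases hre : w.re = 0
    · exfalso
      apply h0 w hw
      apply Complex.ext
      · exact hre
      · rw [hre] at h
        simpa using h
    · field_simp
      linarith

/-- the polynomial with prescribed roots -/
noncomputable def prodPoly (S : Finset ℂ) (e : ℂ → ℕ) : ℂ[X] := ∏ p ∈ S, (X - C p) ^ e p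

theorem prodPoly_monic (S : Finset ℂ) (e : ℂ → ℕ) : (prodPoly S e).Monic :=
  monic_prod_of_monic _ _ fun p _ => (monic_X_sub_C p).pow _

theorem prodPoly_eval (S : Finset ℂ) (e : ℂ → ℕ) (he : ∀ p ∈ S, e p ≠ 0) (z : ℂ) :
    (prodPoly S e).eval z = 0 ↔ z ∈ S := by
  unfold prodPoly
  rw [eval_prod, Finset.prod_eq_zero_iff]
  constructor
  · rintro ⟨p, hp, h⟩
    rw [eval_pow, pow_eq_zero_iff (he p hp), eval_sub, eval_X, eval_C, sub_eq_zero] at h
    exact h ▸ hp
  · intro hz
    refine ⟨z, hz, ?_⟩
    simp [he z hz]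

theorem prodPoly_rootMultiplicity (S : Finset ℂ) (e : ℂ → ℕ) (z : ℂ) :
    (prodPoly S e).rootMultiplicity z = if z ∈ S then e z else 0 := by
  classical
  rw [← count_roots]
  unfold prodPoly
  rw [roots_prod _ _ (Finset.prod_ne_zero_iff.2 fun p _ => pow_ne_zero _ (X_sub_C_ne_zero p))]
  rw [Multiset.count_bind]
  simp only [roots_pow, roots_X_sub_C, Multiset.count_nsmul, Multiset.count_singleton]
  rw [← Finset.sum_eq_multiset_sum]
  simp

/-- `D` is the pole divisor of the rational function `N / Q`. -/
theorem poleOrder_eq {D : OnePoint ℂ →₀ ℕ} {N Q : ℂ[X]} (hco : IsCoprime N Q) (hQ : Q.Monic)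
    (h1 : ∀ p : ℂ, Q.rootMultiplicity p = D p) (h2 : N.natDegree - Q.natDegree = D ∞) :
    ∀ x, poleOrder (algebraMap ℂ[X] (RatFunc ℂ) N / algebraMap ℂ[X] (RatFunc ℂ) Q) x = D x := by
  obtain ⟨hn, hd⟩ := num_denom_of_coprime hco hQ
  intro x
  induction x using OnePoint.rec with
  | infty =>
    change (RatFunc.num _).natDegree - (RatFunc.denom _).natDegree = _
    rw [hn, hd, h2]
  | coe p =>
    change (RatFunc.denom _).rootMultiplicity p = _
    rw [hd, h1]

/-- **Main theorem.** Let `D` be a pole divisor with at least one finite pole, given by its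
multiplicities `D x ≥ 0`, `x ∈ ℂ ∪ {∞}`. The greatest number of bounded components of `𝔍_R`, where
`R` is a rational function with pole divisor `D`, is `s(D) - 1` if `∞` is not a pole, and `s(D)` if
`∞` is a pole. -/
theorem result (D : OnePoint ℂ →₀ ℕ) (hD : ∃ p : ℂ, D (p : OnePoint ℂ) ≠ 0) :
    IsGreatest {n : ℕ∞ | ∃ R : RatFunc ℂ, (∀ x, poleOrder R x = D x) ∧ numBounded R = n}
      ((if D ∞ = 0 then numFinitePoles D - 1 else numFinitePoles D : ℕ) : ℕ∞) := by
  classical
  have hfin : {p : ℂ | D (p : OnePoint ℂ) ≠ 0}.Finite := by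
    have h1 : {p : ℂ | D (p : OnePoint ℂ) ≠ 0} = (fun p : ℂ => (p : OnePoint ℂ)) ⁻¹' D.support := by
      ext p
      simp
    rw [h1]
    exact D.support.finite_toSet.preimage (OnePoint.coe_injective.injOn)
  obtain ⟨p₀, hp₀⟩ := hD
  set S : Finset ℂ := hfin.toFinset with hS
  have hmemS : ∀ p : ℂ, p ∈ S ↔ D (p : OnePoint ℂ) ≠ 0 := fun p => by
    rw [hS, Set.Finite.mem_toFinset]; rfl
  have hSset : {p : ℂ | D (p : OnePoint ℂ) ≠ 0} = (S : Set ℂ) := by
    ext p
    rw [Finset.mem_coe, hmemS]
    rfl
  have hs : numFinitePoles D = S.card := by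
    unfold numFinitePoles
    rw [hSset, Set.ncard_coe_finset]
  have hScard : 0 < S.card := Finset.card_pos.2 ⟨p₀, (hmemS p₀).2 hp₀⟩
  -- upper bound
  have hupper : ∀ R : RatFunc ℂ, (∀ x, poleOrder R x = D x) → numBounded R ≤
      ((if D ∞ = 0 then numFinitePoles D - 1 else numFinitePoles D : ℕ) : ℕ∞) := by
    intro R hR
    have hroots : {q : ℂ | R.denom.eval q = 0} = (S : Set ℂ) := by
      ext q
      rw [Finset.mem_coe, hmemS, ← hR, poleOrder_ne_zero_iff]
      rfl
    have hq₀ : R.denom.eval p₀ = 0 := by
      rw [← poleOrder_ne_zero_iff, hR]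
      exact hp₀
    rw [numBounded_eq]
    split_ifs with h
    · have hdeg : R.num.natDegree ≤ R.denom.natDegree := by
        have h1 : R.num.natDegree - R.denom.natDegree = 0 := by
          rw [← h, ← hR]
          rfl
        omega
      have h2 := upper' R.isCoprime_num_denom hq₀ R.denom_ne_zero hdeg
      rw [hroots, Set.encard_coe_eq_coe_finsetCard] at h2
      rw [hs]
      have h3 : ((S.card : ℕ) : ℕ∞) = ((S.card - 1 : ℕ) : ℕ∞) + 1 := by
        have : S.card = (S.card - 1) + 1 := by omega
        exact_mod_cast this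
      rw [h3] at h2
      exact (ENat.add_le_add_iff_right ENat.one_ne_top).1 h2
    · have h2 := upper R.isCoprime_num_denom hq₀ R.denom_ne_zero
      rw [hroots, Set.encard_coe_eq_coe_finsetCard] at h2
      rw [hs]
      exact h2
  refine ⟨?_, ?_⟩
  · -- construction
    by_cases h : D ∞ = 0
    · -- infinity is not a pole
      set e : ℂ → ℕ := fun p => D (p : OnePoint ℂ) with he
      set S' : Finset ℂ := S.erase p₀ with hS'
      have he' : ∀ p ∈ S', e p ≠ 0 := fun p hp => (hmemS p).1 (Finset.mem_of_mem_erase hp)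
      set m := D (p₀ : OnePoint ℂ) with hm
      have hm0 : m ≠ 0 := hp₀
      set V : ℂ[X] := (X - C p₀) ^ m with hV
      set Q₁ : ℂ[X] := prodPoly S' e with hQ₁
      have hVm : V.Monic := (monic_X_sub_C p₀).pow m
      have hQ₁m : Q₁.Monic := prodPoly_monic _ _
      obtain ⟨c, hc0, hc⟩ := exists_scalar
        ((fun p : ℂ => -((m : ℂ) * (p - p₀) ^ (m - 1)) / ((p - p₀) ^ m) ^ 2) '' (S' : Set ℂ))
        (S'.finite_toSet.image _) (by
          rintro _ ⟨p, hp, rfl⟩
          have h1 : p - p₀ ≠ 0 := sub_ne_zero.2 (Finset.ne_of_mem_erase hp)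
          have h2 : (m : ℂ) ≠ 0 := by exact_mod_cast hm0
          exact div_ne_zero (neg_ne_zero.2 (mul_ne_zero h2 (pow_ne_zero _ h1)))
            (pow_ne_zero _ (pow_ne_zero _ h1)))
      have hVe : ∀ p, Q₁.eval p = 0 → V.eval p ≠ 0 := by
        intro p hp
        rw [hQ₁, prodPoly_eval _ _ he'] at hp
        rw [hV, eval_pow, eval_sub, eval_X, eval_C]
        exact pow_ne_zero _ (sub_ne_zero.2 (Finset.ne_of_mem_erase hp))
      have hB : ∀ p, Q₁.eval p = 0 → (f (C c) V p).im ≠ 0 := by
        intro p hp
        rw [hQ₁, prodPoly_eval _ _ he'] at hp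
        have h1 := hc _ ⟨p, hp, rfl⟩
        have h2 : f (C c) V p
            = c * (-((m : ℂ) * (p - p₀) ^ (m - 1)) / ((p - p₀) ^ m) ^ 2) := by
          unfold f G
          rw [hV]
          simp only [derivative_C, zero_mul, zero_sub, derivative_X_sub_C_pow, eval_neg, eval_mul,
            eval_C, eval_pow, eval_sub, eval_X]
          ring
        rw [h2]
        exact h1
      obtain ⟨ε, hε0, hε⟩ := lower (U := C c) hQ₁m.ne_zero hVe hB
      set N : ℂ[X] := C c * Q₁ + C ε * V with hN
      have hVQ : IsCoprime V Q₁ := by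
        rw [hV, hQ₁]
        apply IsCoprime.pow_left
        unfold prodPoly
        apply IsCoprime.prod_right
        intro p hp
        apply IsCoprime.pow_right
        apply isCoprime_X_sub_C_of_isUnit_sub
        exact (sub_ne_zero.2 (Finset.ne_of_mem_erase hp).symm).isUnit
      have hco : IsCoprime N (V * Q₁) := by
        apply IsCoprime.mul_right
        · rw [hN]
          apply IsCoprime.add_mul_right_left
          exact ((isCoprime_mul_unit_left_left (isUnit_C.2 hc0.isUnit) _ _).2 hVQ.symm)
        · rw [hN, add_comm]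
          apply IsCoprime.add_mul_right_left
          exact ((isCoprime_mul_unit_left_left (isUnit_C.2 hε0.isUnit) _ _).2 hVQ)
      have hQm : (V * Q₁).Monic := hVm.mul hQ₁m
      have hroot : ∀ p : ℂ, (V * Q₁).rootMultiplicity p = D p := by
        intro p
        rw [rootMultiplicity_mul hQm.ne_zero, hQ₁, prodPoly_rootMultiplicity, hV]
        by_cases hp : p = p₀
        · subst hp
          rw [rootMultiplicity_X_sub_C_pow, if_neg (Finset.notMem_erase _ _), add_zero]
        · have h1 : ((X - C p₀ : ℂ[X]) ^ m).rootMultiplicity p = 0 := by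
            apply rootMultiplicity_eq_zero
            intro hr
            rw [IsRoot, eval_pow, eval_sub, eval_X, eval_C] at hr
            exact pow_ne_zero _ (sub_ne_zero.2 hp) hr
          rw [h1, zero_add]
          by_cases hpS : p ∈ S
          · rw [if_pos (Finset.mem_erase.2 ⟨hp, hpS⟩)]
          · rw [if_neg (fun h => hpS (Finset.mem_of_mem_erase h))]
            rw [hmemS, not_not] at hpS
            exact hpS.symm
      have hdeg : N.natDegree - (V * Q₁).natDegree = D ∞ := by
        rw [h, hVm.natDegree_mul hQ₁m]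
        have h1 : N.natDegree ≤ max Q₁.natDegree V.natDegree :=
          (natDegree_add_le _ _).trans (max_le_max (natDegree_C_mul_le _ _)
            (natDegree_C_mul_le _ _))
        omega
      refine ⟨_, poleOrder_eq hco hQm hroot hdeg, ?_⟩
      apply le_antisymm
      · exact hupper _ (poleOrder_eq hco hQm hroot hdeg)
      · obtain ⟨hn, hd⟩ := num_denom_of_coprime hco hQm
        rw [numBounded_eq, hn, hd, if_pos h]
        have h1 : {q : ℂ | Q₁.eval q = 0} = (S' : Set ℂ) := by
          ext q
          rw [Finset.mem_coe, ← prodPoly_eval _ _ he']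
          rfl
        rw [h1, Set.encard_coe_eq_coe_finsetCard] at hε
        rw [hs]
        have h2 : S'.card = S.card - 1 := Finset.card_erase_of_mem ((hmemS p₀).2 hp₀)
        rw [← h2]
        exact hε
    · -- infinity is a pole
      set e : ℂ → ℕ := fun p => D (p : OnePoint ℂ) with he
      have he' : ∀ p ∈ S, e p ≠ 0 := fun p hp => (hmemS p).1 hp
      set m := D ∞ with hm
      obtain ⟨a, ha⟩ := S.finite_toSet.exists_notMem
      set Q₁ : ℂ[X] := prodPoly S e with hQ₁
      have hQ₁m : Q₁.Monic := prodPoly_monic _ _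
      obtain ⟨c, hc0, hc⟩ := exists_scalar
        ((fun p : ℂ => (m : ℂ) * (p - a) ^ (m - 1)) '' (S : Set ℂ))
        (S.finite_toSet.image _) (by
          rintro _ ⟨p, hp, rfl⟩
          have h1 : p - a ≠ 0 := sub_ne_zero.2 (fun h => ha (h ▸ hp))
          have h2 : (m : ℂ) ≠ 0 := by exact_mod_cast h
          exact mul_ne_zero h2 (pow_ne_zero _ h1))
      have hB : ∀ p, Q₁.eval p = 0 → (f (C c * (X - C a) ^ m) 1 p).im ≠ 0 := by
        intro p hp
        rw [hQ₁, prodPoly_eval _ _ he'] at hp
        have h1 := hc _ ⟨p, hp, rfl⟩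
        have h2 : f (C c * (X - C a) ^ m) 1 p = c * ((m : ℂ) * (p - a) ^ (m - 1)) := by
          unfold f G
          simp only [derivative_mul, derivative_C, zero_mul, zero_add, derivative_X_sub_C_pow,
            eval_mul, eval_C, eval_pow, eval_sub, eval_X, derivative_one, mul_zero,
            eval_one, mul_one, sub_zero, one_pow, div_one]
        rw [h2]
        exact h1
      obtain ⟨ε, hε0, hε⟩ := lower (U := C c * (X - C a) ^ m) (V := 1) hQ₁m.ne_zero
        (fun p _ => by rw [eval_one]; exact one_ne_zero) hB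
      rw [one_mul, mul_one] at hε
      set N : ℂ[X] := C c * (X - C a) ^ m * Q₁ + C ε with hN
      have hco : IsCoprime N Q₁ := by
        rw [hN, add_comm]
        apply IsCoprime.add_mul_right_left
        exact ⟨C ε⁻¹, 0, by rw [zero_mul, add_zero, ← C_mul, inv_mul_cancel₀ hε0, C_1]⟩
      have hroot : ∀ p : ℂ, Q₁.rootMultiplicity p = D p := by
        intro p
        rw [hQ₁, prodPoly_rootMultiplicity]
        by_cases hpS : p ∈ S
        · rw [if_pos hpS]
        · rw [if_neg hpS]
          rw [hmemS, not_not] at hpS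
          exact hpS.symm
      have hdeg : N.natDegree - Q₁.natDegree = D ∞ := by
        have h1 : N.natDegree = m + Q₁.natDegree := by
          rw [hN, natDegree_add_C, mul_assoc, natDegree_C_mul hc0,
            ((monic_X_sub_C a).pow m).natDegree_mul hQ₁m, natDegree_pow, natDegree_X_sub_C,
            mul_one]
        rw [h1]
        omega
      refine ⟨_, poleOrder_eq hco hQ₁m hroot hdeg, ?_⟩
      apply le_antisymm
      · exact hupper _ (poleOrder_eq hco hQ₁m hroot hdeg)
      · obtain ⟨hn, hd⟩ := num_denom_of_coprime hco hQ₁m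
        rw [numBounded_eq, hn, hd, if_neg h]
        have h1 : {q : ℂ | Q₁.eval q = 0} = (S : Set ℂ) := by
          ext q
          rw [Finset.mem_coe, ← prodPoly_eval _ _ he']
          rfl
        rw [h1, Set.encard_coe_eq_coe_finsetCard] at hε
        rw [hs]
        exact hε
  · rintro n ⟨R, hR, rfl⟩
    exact hupper R hR

end Pool.Agent.Results.MP_bd2914_ag.BoundedComponents
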